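import Pool.Agent.Q121.CS.Box

set_option autoImplicit false

/-! # MP_ffa63f_al, Q1 for groups of cardinality less than aleph omega

Every infinite group `G` of cardinality at most `ℵ_n`, for some natural number `n`, is a product `C S` of a
countable set `C` and a small set `S`.

Proof: let `H` be a countable infinite subgroup.  By induction on `n` every subgroup `K ⊇ H` of cardinality at
most `ℵ_n` contains a set `S` which meets all cosets `H g ⊆ K` and contains no product `X₁ ⋯ X_(n+2) b` with
`|X_i| ≥ T_n`: for countable `K` one chooses representatives such that no difference `s' s⁻¹ ≠ 1` occurs three
times; in the induction step one writes `K` as the union of a chain of subgroups of cardinality at most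
`ℵ_(n-1)`, glues the sets along the layers of the chain, and shows that every large product set contains a
large product set with one factor less inside one layer.  A product Ramsey theorem shows that `S` is small. -/

namespace Pool.Agent.Results.MP_ffa63f_al.BelowAlephOmega

open Pool.Agent.Q121.CS
open scoped Pointwise

universe u

theorem result (G : Type u) [Group G] [Infinite G] (n : ℕ) (hcard : Cardinal.mk G ≤ Cardinal.aleph n) :
    ∃ C S : Set G, C.Countable ∧ SmallSet S ∧ C * S = Set.univ :=
  main_all n hcard

end Pool.Agent.Results.MP_ffa63f_al.BelowAlephOmega
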